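import Pool.Agent.KMid.Layer

/-!
# Graded Lie rings whose support can be peeled off in layers without midpoints
-/

set_option autoImplicit false

namespace Pool.Agent.Results.MP_6f1380_al.FewComponents

open Pool.Agent.H24.Krek Pool.Agent.KMid

/-- Let `G` be an abelian group, let `L` be a `G`-graded Lie ring with `L_0 = 0` whose nonzero
components have indices in the finite set `S`, and let `N` be a natural number such that

* either `S` is contained in a union `B 0 ∪ ⋯ ∪ B (k - 1)` of finite sets such that no element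
  `t` of `B i` is the midpoint of two elements `x ≠ t` and `y` of `B i ∪ ⋯ ∪ B (k - 1)`, and the
  product of the numbers `|B i| + 1` is at most `N`,
* or `G` has no nonzero element of order at most `2 ^ (d - 1)`, where `d = |S|`, and
  `(d % 2 + 1) * 3 ^ (d / 2) ≤ N`.

Then `L` is nilpotent of class at most `N - 1` and soluble of derived length at most
`⌈log₂ N⌉`. -/
theorem result (G : Type*) [AddCommGroup G] (S : Finset G) (N : ℕ)
    (h : (∃ (k : ℕ) (B : ℕ → Finset G), (∀ x ∈ S, ∃ j < k, x ∈ B j) ∧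
          (∀ i < k, ∀ t ∈ B i, ∀ j < k, i ≤ j → ∀ x ∈ B j, x ≠ t →
            ∀ l < k, i ≤ l → ∀ y ∈ B l, x + y ≠ t + t) ∧
          ∏ i ∈ Finset.range k, ((B i).card + 1) ≤ N) ∨
      ((∀ (g : G) (m : ℕ), 0 < m → 2 * m ≤ 2 ^ S.card → m • g = 0 → g = 0) ∧
          (S.card % 2 + 1) * 3 ^ (S.card / 2) ≤ N))
    (L : Type*) [LieRing L] (𝓛 : G → AddSubgroup L) (htop : ⨆ i, 𝓛 i = ⊤)
    (hgr : ∀ i j, ∀ x ∈ 𝓛 i, ∀ y ∈ 𝓛 j, ⁅x, y⁆ ∈ 𝓛 (i + j)) (h0 : 𝓛 0 = ⊥)
    (hoff : ∀ i, i ∉ S → 𝓛 i = ⊥) :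
    LieModule.lowerCentralSeries ℤ L L (N - 1) = ⊥ ∧
      LieAlgebra.derivedSeries ℤ L (Nat.clog 2 N) = ⊥ := by
  classical
  have hW : Won (S : Set G) (N - 1) ∧ 1 ≤ N := by
    rcases h with ⟨k, B, hSB, hB, hN⟩ | ⟨hG, hN⟩
    · have h1 := won_layers k B (by
        intro i hi t ht j hij hj x hx hxt l hil hl hmem
        refine hB i hi t ht j hj hij x hx hxt l hl hil _ hmem ?_
        abel)
      have hpos : 1 ≤ ∏ i ∈ Finset.range k, ((B i).card + 1) :=
        Finset.one_le_prod' fun i _ => by omega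
      exact ⟨h1.mono (fun x hx => hSB x hx) (by omega), by omega⟩
    · have h1 := won_two hG S.card S rfl le_rfl
      have hpos : 1 ≤ (S.card % 2 + 1) * 3 ^ (S.card / 2) :=
        Nat.mul_pos (by omega) (by positivity)
      exact ⟨h1.mono le_rfl (by omega), by omega⟩
  obtain ⟨hW, hN1⟩ := hW
  refine ⟨class_of_won hW htop hgr h0 (fun i hi => hoff i hi), ?_⟩
  refine derived_of_won hW ?_ htop hgr h0 (fun i hi => hoff i hi)
  have := Nat.le_pow_clog (b := 2) (by norm_num) N
  omega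

end Pool.Agent.Results.MP_6f1380_al.FewComponents
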