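import Pool.Agent.H9.KrekninLower2

/-!
# A polynomial lower bound for the derived length in Kreknin's theorem
-/

namespace Pool.Agent.Results.MP_6f1380_al.LowerBound

open Finset Pool.Agent.H9.Kreknin

/-- The derived length of `L`: the least `s` with `L^(s) = 0` (`⊤` if there is none). -/
noncomputable def derivedLength (L : Type) [LieRing L] : ℕ∞ :=
  sInf {d | ∃ s : ℕ, derived L s = ⊥ ∧ d = s}

/-- `f n` is the supremum of the derived lengths of all `(ℤ/n)`-graded Lie rings with zero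
component `0`. -/
noncomputable def f (n : ℕ) [NeZero n] : ℕ∞ :=
  sSup {d | ∃ (L : Type) (_ : LieRing L) (𝒜 : ZMod n → AddSubgroup L),
    IsGrading n L 𝒜 ∧ 𝒜 0 = ⊥ ∧ d = derivedLength L}

theorem derived_antitone (L : Type) [LieRing L] (s : ℕ) (h : derived L s = ⊥) (t : ℕ)
    (hst : s ≤ t) : derived L t = ⊥ := by
  induction t, hst using Nat.le_induction with
  | base => exact h
  | succ t _ ih =>
    rw [eq_bot_iff, derived, AddSubgroup.closure_le]
    rintro _ ⟨x, hx, y, _, rfl⟩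
    rw [ih, AddSubgroup.mem_bot] at hx
    rw [hx, zero_lie]
    exact AddSubgroup.zero_mem _

theorem le_f (n : ℕ) [NeZero n] (k : ℕ) (g : ℕ → ZMod n)
    (hg : ∀ i < k, ∀ A ⊆ range i, g i ≠ ∑ j ∈ A, g j) : (k : ℕ∞) ≤ f n := by
  rcases Nat.eq_zero_or_pos k with h0 | h0
  · subst h0
    simp
  refine le_trans ?_ (le_sSup ⟨Lk k (ZMod 2), inferInstance, grad g k (ZMod 2),
    grad_isGrading g k, grad_zero g k hg, rfl⟩)
  refine le_sInf ?_
  rintro _ ⟨s, hs, rfl⟩
  rw [Nat.cast_le]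
  by_contra hlt
  exact derived_ne (ZMod 2) k h0 (derived_antitone _ s hs (k - 1) (by omega))

theorem sum_range (k i : ℕ) (hi : i ≤ k) :
    2 * ∑ j ∈ range i, (k - j) + (k - i) * (k - i + 1) = k * (k + 1) := by
  induction i with
  | zero => simp
  | succ i ih =>
    have h1 := ih (by omega)
    rw [sum_range_succ]
    obtain ⟨m, rfl⟩ : ∃ m, k = i + 1 + m := ⟨k - (i + 1), by omega⟩
    have e1 : i + 1 + m - i = m + 1 := by omega
    have e2 : i + 1 + m - (i + 1) = m := by omega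
    rw [e1] at h1 ⊢
    rw [e2]
    nlinarith

theorem seq_ok (n k : ℕ) (hk : k < n) (h : k * (k + 1) ≤ 2 * n + 2) (i : ℕ) (hi : i < k)
    (A : Finset ℕ) (hA : A ⊆ range i) :
    ((k - i : ℕ) : ZMod n) ≠ ∑ j ∈ A, ((k - j : ℕ) : ZMod n) := by
  rw [← Nat.cast_sum]
  intro heq
  rw [ZMod.natCast_eq_natCast_iff] at heq
  rcases A.eq_empty_or_nonempty with hA0 | ⟨a, ha⟩
  · subst hA0
    rw [sum_empty] at heq
    have h1 := (Nat.modEq_zero_iff_dvd.mp heq)
    have := Nat.le_of_dvd (by omega) h1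
    omega
  · have ha' : a < i := mem_range.mp (hA ha)
    have h1 : k - a ≤ ∑ j ∈ A, (k - j) :=
      single_le_sum (f := fun j => k - j) (fun _ _ => Nat.zero_le _) ha
    have h2 : ∑ j ∈ A, (k - j) ≤ ∑ j ∈ range i, (k - j) := sum_le_sum_of_subset hA
    have h3 := sum_range k i hi.le
    have h4 := (Nat.modEq_iff_dvd' (by omega : k - i ≤ ∑ j ∈ A, (k - j))).mp heq
    have h5 := Nat.le_of_dvd (by omega) h4
    obtain ⟨m, hm⟩ : ∃ m, k - i = m + 1 := ⟨k - i - 1, by omega⟩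
    rw [hm] at h3 h5
    have h6 : n + (m + 1) ≤ ∑ j ∈ A, (k - j) := by omega
    have h7 : 0 < (m + 1) * (m + 1 + 1) := by positivity
    linarith

/-- Let `f n` be the supremum of the derived lengths of the `(ℤ/n)`-graded Lie rings with
`L_0 = 0`. If `g_0, …, g_{k-1}` is a sequence in `ℤ/n` in which no term is a sum of a (possibly
empty) set of earlier terms, then `f n ≥ k`. Consequently `2n + 2 < (f n + 1) (f n + 2)` for all
`n ≥ 3`, so that `f n > √(2n) - 3/2`. -/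
theorem result :
    (∀ (n : ℕ) [NeZero n] (k : ℕ) (g : ℕ → ZMod n),
      (∀ i < k, ∀ A ⊆ range i, g i ≠ ∑ j ∈ A, g j) → (k : ℕ∞) ≤ f n) ∧
    ∀ (n : ℕ) [NeZero n], 3 ≤ n → 2 * (n : ℕ∞) + 2 < (f n + 1) * (f n + 2) := by
  refine ⟨fun n _ k g hg => le_f n k g hg, ?_⟩
  intro n _ hn
  rcases eq_or_ne (f n) ⊤ with htop | htop
  · rw [htop]
    have h1 : ((⊤ : ℕ∞) + 1) * (⊤ + 2) = ⊤ := by simp
    rw [h1]
    have h2 : (2 : ℕ∞) * n + 2 = ((2 * n + 2 : ℕ) : ℕ∞) := by push_cast; rfl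
    rw [h2]
    exact ENat.natCast_lt_top _
  · obtain ⟨s, hs⟩ := ENat.ne_top_iff_exists.mp htop
    rw [← hs]
    have h2 : (2 : ℕ∞) * n + 2 = ((2 * n + 2 : ℕ) : ℕ∞) := by push_cast; rfl
    have h3 : ((s : ℕ∞) + 1) * (s + 2) = (((s + 1) * (s + 2) : ℕ) : ℕ∞) := by push_cast; rfl
    rw [h2, h3, Nat.cast_lt]
    by_contra hcon
    have hk : s + 1 < n := by
      by_contra hge
      nlinarith
    have h4 := le_f n (s + 1) (fun j => ((s + 1 - j : ℕ) : ZMod n))
      (fun i hi A hA => seq_ok n (s + 1) hk (by linarith) i hi A hA)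
    rw [← hs, Nat.cast_le] at h4
    omega

end Pool.Agent.Results.MP_6f1380_al.LowerBound
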