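import Pool.Agent.KArc.Final

/-!
# Graded Lie rings whose nonzero components lie in a progression of length two thirds
-/

set_option autoImplicit false

namespace Pool.Agent.Results.MP_6f1380_al.ProgressionSupport

/-- Let `n` be odd and `3 m ≤ 2 n + 2`. Let `L` be a `ZMod n`-graded Lie ring with `L_0 = 0` whose nonzero
components have indices in the arithmetic progression `u (a + j)`, `j < m`, with `u` a unit. With
`b = m - (n + 1) / 2` (natural subtraction) `L` is nilpotent of class at most `3 * 2 ^ (m + b (b + 1) / 2)` and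
soluble of derived length at most `m + 2 + b (b + 1) / 2`. -/
theorem result (n : ℕ) (hn : Odd n) (m : ℕ) (hm : 3 * m ≤ 2 * n + 2) (u : (ZMod n)ˣ) (a : ZMod n)
    (L : Type*) [LieRing L] (𝓛 : ZMod n → AddSubgroup L) (htop : ⨆ i, 𝓛 i = ⊤)
    (hgr : ∀ i j, ∀ x ∈ 𝓛 i, ∀ y ∈ 𝓛 j, ⁅x, y⁆ ∈ 𝓛 (i + j)) (h0 : 𝓛 0 = ⊥)
    (hoff : ∀ i, (∀ j < m, i ≠ (u : ZMod n) * (a + (j : ZMod n))) → 𝓛 i = ⊥) :
    LieModule.lowerCentralSeries ℤ L L (3 * 2 ^ (m +
      (m - (n + 1) / 2) * (m - (n + 1) / 2 + 1) / 2)) = ⊥ ∧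
    LieAlgebra.derivedSeries ℤ L (m + 2 +
      (m - (n + 1) / 2) * (m - (n + 1) / 2 + 1) / 2) = ⊥ :=
  Pool.Agent.KArc.final hn hm u a htop hgr h0 hoff

end Pool.Agent.Results.MP_6f1380_al.ProgressionSupport
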