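import Pool.Agent.H22.Krek.FinT

/-!
# Kreknin's theorem for gradings with given support: quasi-polynomial bounds
-/

set_option autoImplicit false

namespace Pool.Agent.Results.MP_6f1380_al.QuasiPolynomialComponents

open Pool.Agent.H22.Krek Pool.Agent.H75.Krek Pool.Agent.H24.Krek

private theorem af_of {n : ℕ} [NeZero n] (hn : 2 ≤ n) {T : Finset (ZMod n)}
    (hT : (0 : ZMod n) ∉ T)
    (h : n.Prime ∨ T.card < n.minFac ∨ ∀ p ∈ T, ∀ i ∈ T, ∃ m : ℕ, p + m • i ∉ T) :
    AF (T : Set (ZMod n)) (T : Set (ZMod n)) := by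
  classical
  intro p hp i hi
  have hp' : p ∈ T := hp
  have hi' : i ∈ T := hi
  have hi0 : i ≠ 0 := fun h0 => hT (by rw [← h0]; exact hi')
  rcases h with h | h | h
  · have : Fact n.Prime := ⟨h⟩
    refine ⟨(-p * i⁻¹).val, ?_⟩
    have h1 : p + (-p * i⁻¹).val • i = 0 := by
      rw [nsmul_eq_mul, ZMod.natCast_zmod_val, mul_assoc, inv_mul_cancel₀ hi0]
      ring
    rw [h1]
    exact_mod_cast hT
  · by_contra hcon
    push Not at hcon
    have hord : n.minFac ≤ addOrderOf i := by
      refine Nat.minFac_le_of_dvd ?_ ?_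
      · have h1 : addOrderOf i ≠ 1 := fun h1 => hi0 (AddMonoid.addOrderOf_eq_one_iff.1 h1)
        have h2 : 0 < addOrderOf i := addOrderOf_pos i
        omega
      · refine addOrderOf_dvd_of_nsmul_eq_zero ?_
        rw [nsmul_eq_mul, CharP.cast_eq_zero, zero_mul]
    have hinj : Set.InjOn (fun m : ℕ => p + m • i) (Finset.range (addOrderOf i)) := by
      intro a ha b hb hab
      have ha' : a < addOrderOf i := Finset.mem_range.1 ha
      have hb' : b < addOrderOf i := Finset.mem_range.1 hb
      have hab' : a • i = b • i := add_left_cancel hab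
      exact nsmul_injOn_Iio_addOrderOf ha' hb' hab'
    have hsub : (Finset.range (addOrderOf i)).image (fun m : ℕ => p + m • i) ⊆ T := by
      intro x hx
      obtain ⟨m, _, rfl⟩ := Finset.mem_image.1 hx
      exact hcon m
    have hc := Finset.card_le_card hsub
    rw [Finset.card_image_of_injOn hinj, Finset.card_range] at hc
    omega
  · obtain ⟨m, hm⟩ := h p hp' i hi'
    exact ⟨m, fun h' => hm (by exact_mod_cast h')⟩

/-- Let `n ≥ 2` and let `L` be a `(ℤ/n)`-graded Lie ring whose components outside a set `T` of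
`d` nonzero residues are `0`; write `s J` for `6 d (d ⌈log₂ (d + 1)⌉) ^ J`.

(1) Suppose that `n` is prime, or `d` is less than the least prime factor of `n`, or `T` contains
no sequence `p, p + i, p + 2 i, …` with `p, i ∈ T`. Let `g` be `⌊(n - 1) / d⌋`, or the length of
an arithmetic progression disjoint from `T` whose difference is a unit modulo `n`. If
`n + 1 ≤ 2 ^ J * (g + 1)`, then `L` has derived length at most `s J` and class at most
`∑_{i < s J} d ^ i`.

(2) For all `n` and `T`, with `q` the least prime factor of `n`, if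
`n + 1 ≤ 2 ^ J * (n / q + 1)`, then `L` has derived length at most
`2 ^ min (n / q - 1) d * s J`. -/
theorem result (n : ℕ) (hn : 2 ≤ n) (T : Finset (ZMod n)) (hT : (0 : ZMod n) ∉ T)
    (L : Type*) [LieRing L] (𝓛 : ZMod n → AddSubgroup L) (htop : ⨆ i, 𝓛 i = ⊤)
    (hgr : ∀ i j, ∀ x ∈ 𝓛 i, ∀ y ∈ 𝓛 j, ⁅x, y⁆ ∈ 𝓛 (i + j)) (hoff : ∀ i, i ∉ T → 𝓛 i = ⊥) :
    ((n.Prime ∨ T.card < n.minFac ∨ ∀ p ∈ T, ∀ i ∈ T, ∃ m : ℕ, p + m • i ∉ T) →
      ∀ g J : ℕ, (g = (n - 1) / T.card ∨
        ∃ (u : (ZMod n)ˣ) (a : ZMod n), ∀ j < g, a + (j : ZMod n) * (u : ZMod n) ∉ T) →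
      n + 1 ≤ 2 ^ J * (g + 1) →
      LieAlgebra.derivedSeries ℤ L (6 * T.card * (T.card * Nat.clog 2 (T.card + 1)) ^ J) = ⊥ ∧
      LieModule.lowerCentralSeries ℤ L L
        (∑ i ∈ Finset.range (6 * T.card * (T.card * Nat.clog 2 (T.card + 1)) ^ J),
          T.card ^ i) = ⊥) ∧
    (∀ J : ℕ, n + 1 ≤ 2 ^ J * (n / n.minFac + 1) →
      LieAlgebra.derivedSeries ℤ L (2 ^ min (n / n.minFac - 1) T.card *
        (6 * T.card * (T.card * Nat.clog 2 (T.card + 1)) ^ J)) = ⊥) := by
  classical
  have : NeZero n := ⟨by omega⟩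
  have hcl : Closed 𝓛 := closed_iff.2 hgr
  have hconc : ∀ (X : ZMod n → AddSubgroup L) (T' : Finset (ZMod n)), T'.card = T.card →
      AF (T' : Set (ZMod n)) (T' : Set (ZMod n)) → (⨆ i, X i = ⊤) → Closed X →
      (∀ i, i ∉ T' → X i = ⊥) → ∀ s, (der X s ≤ fun _ => ⊥) →
      LieAlgebra.derivedSeries ℤ L s = ⊥ ∧
      LieModule.lowerCentralSeries ℤ L L (∑ i ∈ Finset.range s, T.card ^ i) = ⊥ := by
    intro X T' hcard hAF hXtop hX hX0 s hs
    refine ⟨derivedSeries_eq_bot hXtop hs, lcs_eq_bot hXtop ?_⟩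
    rw [← hcard]
    exact le_trans (class_le hAF hX hX0 s) hs
  have hBle : ∀ J, B T.card J ≤ 6 * T.card * (T.card * Nat.clog 2 (T.card + 1)) ^ J := by
    intro J
    have := B_leT T.card J
    omega
  refine ⟨?_, ?_⟩
  · intro hAF g J hg hJ
    have hAFT := af_of hn hT hAF
    rcases hg with hg | ⟨u, a, hua⟩
    · obtain ⟨a, ha⟩ := exists_gap T
      rw [← hg] at ha
      refine hconc 𝓛 T rfl hAFT htop hcl hoff _ ?_
      exact le_trans (der_anti hcl (hBle J)) (der_of_gap hT hAFT a ha hJ hcl hoff)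
    · -- dilation
      set T' : Finset (ZMod n) := Finset.univ.filter fun i => (u : ZMod n) * i ∈ T with hT'
      have hmem : ∀ i, i ∈ T' ↔ (u : ZMod n) * i ∈ T := by
        intro i
        simp [hT']
      have hcard : T'.card = T.card := by
        refine Finset.card_nbij' (fun i => (u : ZMod n) * i) (fun i => ((u⁻¹ : (ZMod n)ˣ) : ZMod n) * i)
          ?_ ?_ ?_ ?_
        · intro i hi
          exact (hmem i).1 hi
        · intro i hi
          refine (hmem _).2 ?_
          have h1 : (u : ZMod n) * (((u⁻¹ : (ZMod n)ˣ) : ZMod n) * i) = i := by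
            rw [← mul_assoc, Units.mul_inv, one_mul]
          rw [h1]
          exact hi
        · intro i _
          change ((u⁻¹ : (ZMod n)ˣ) : ZMod n) * ((u : ZMod n) * i) = i
          rw [← mul_assoc, Units.inv_mul, one_mul]
        · intro i _
          change (u : ZMod n) * (((u⁻¹ : (ZMod n)ˣ) : ZMod n) * i) = i
          rw [← mul_assoc, Units.mul_inv, one_mul]
      set X : ZMod n → AddSubgroup L := fun i => 𝓛 ((u : ZMod n) * i) with hX
      have hXc : Closed X := by
        refine closed_iff.2 ?_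
        intro i j x hx y hy
        have h1 := hgr _ _ x hx y hy
        change ⁅x, y⁆ ∈ 𝓛 ((u : ZMod n) * (i + j))
        rwa [mul_add]
      have hXtop : ⨆ i, X i = ⊤ := by
        rw [← htop]
        exact (Units.mulLeft u).iSup_comp (g := 𝓛)
      have hX0 : ∀ i, i ∉ T' → X i = ⊥ := by
        intro i hi
        exact hoff _ fun h => hi ((hmem i).2 h)
      have hAFT' : AF (T' : Set (ZMod n)) (T' : Set (ZMod n)) := by
        intro p hp i hi
        obtain ⟨m, hm⟩ := hAFT _ ((hmem p).1 hp) _ ((hmem i).1 hi)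
        refine ⟨m, fun h => hm ?_⟩
        have h1 := (hmem _).1 h
        rw [mul_add, mul_smul_comm] at h1
        exact h1
      have hT0' : (0 : ZMod n) ∉ T' := by
        intro h
        have := (hmem 0).1 h
        rw [mul_zero] at this
        exact hT this
      have hsub : T' ⊆ win n (((u⁻¹ : (ZMod n)ˣ) : ZMod n) * a + (g : ZMod n)) (n - g) := by
        intro t ht
        refine mem_win.2 ?_
        set k := (t - ((u⁻¹ : (ZMod n)ˣ) : ZMod n) * a).val with hk
        have hkn : k < n := ZMod.val_lt _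
        have hkc : ((k : ℕ) : ZMod n) = t - ((u⁻¹ : (ZMod n)ˣ) : ZMod n) * a := by
          rw [hk, ZMod.natCast_zmod_val]
        have hkg : g ≤ k := by
          by_contra hcon
          push Not at hcon
          apply hua k hcon
          have h1 : a + (k : ZMod n) * (u : ZMod n) = (u : ZMod n) * t := by
            rw [hkc, sub_mul, mul_comm ((u⁻¹ : (ZMod n)ˣ) : ZMod n) a, mul_assoc, Units.inv_mul,
              mul_one, mul_comm t]
            ring
          rw [h1]
          exact (hmem t).1 ht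
        have h2 : t - (((u⁻¹ : (ZMod n)ˣ) : ZMod n) * a + (g : ZMod n)) = ((k - g : ℕ) : ZMod n) := by
          rw [Nat.cast_sub hkg, hkc]
          ring
        rw [h2, ZMod.val_natCast, Nat.mod_eq_of_lt (by omega)]
        omega
      refine hconc X T' hcard hAFT' hXtop hXc hX0 _ ?_
      have h3 := der_of_gap (L := L) hT0' hAFT' _ hsub hJ hXc hX0
      rw [hcard] at h3
      exact le_trans (der_anti hXc (hBle J)) h3
  · intro J hJ
    refine derivedSeries_eq_bot (X := 𝓛) htop ?_
    have h1 := PT_all (L := L) hn T hT J hJ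
    set e := min (n / n.minFac - 1) T.card with he
    have hle : 2 ^ e * (B T.card J + 1) - 1 ≤
        2 ^ e * (6 * T.card * (T.card * Nat.clog 2 (T.card + 1)) ^ J) := by
      rcases Nat.eq_zero_or_pos T.card with h0 | hpos
      · have he0 : e = 0 := by omega
        rw [he0, h0]
        cases J <;> simp [B]
      · refine le_trans (Nat.sub_le _ _) (Nat.mul_le_mul_left _ ?_)
        have := B_leT T.card J
        omega
    refine le_trans (der_anti hcl hle) ?_
    refine h1 𝓛 (fun _ => ⊥) hcl ?_ ?_ (fun i => bot_le) ?_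
    · intro i hi
      exact hoff i (by exact_mod_cast hi)
    · refine closed_iff.2 ?_
      intro i j x hx y hy
      have : x = 0 := hx
      subst this
      rw [zero_lie]; exact zero_mem _
    · intro i hi
      have hi0 : i = 0 := by
        by_contra hne
        apply hi
        have h1 : i.val ≠ 0 := fun h0 => hne ((ZMod.val_eq_zero i).1 h0)
        have h3 : i.val < n := ZMod.val_lt i
        exact (mem_win_one (by omega) i).2 ⟨by omega, by omega⟩
      subst hi0
      rw [hoff 0 hT]

end Pool.Agent.Results.MP_6f1380_al.QuasiPolynomialComponents
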